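import Mathlib

/-!
# MP_9ed947_gt, question Q1 (negated form)

For every `c > ln 2` the hyperbolic plane itself has a paradoxical decomposition with Borel pieces
by isometries moving the point `i` by less than `c`.

Idea: let `ln 2 < s < c`.  The translation by `s` along an axis through `P = i` maps a thin sector
of opening `2δ` with apex `P` about the axis into a sector of opening less than `δ`, so two rotated
copies of the image fit side by side in the sector.  Cutting the plane in such sectors gives two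
piecewise isometric injections with disjoint images, and one concludes by the argument of the
Schroeder-Bernstein theorem, which only adds the identity.
-/

namespace Pool.Agent.Results.MP_9ed947_gt.NoLargerConstant

open UpperHalfPlane MeasureTheory Set
open scoped Real

/-- The family `A` is a partition of `X`: nonempty, pairwise disjoint sets with union `X`. -/
def IsPartition {ι : Type} (A : ι → Set ℍ) (X : Set ℍ) : Prop :=
  (∀ i, (A i).Nonempty) ∧ (∀ i j, i ≠ j → Disjoint (A i) (A j)) ∧ (⋃ i, A i) = X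

/-- `A`, `B` are partitions of `X` and the images `ρ i '' A i`, `σ j '' B j` together form a
partition of `X`. -/
def IsParadoxical {m n : ℕ} (X : Set ℍ) (A : Fin m → Set ℍ) (B : Fin n → Set ℍ)
    (ρ : Fin m → ℍ ≃ᵢ ℍ) (σ : Fin n → ℍ ≃ᵢ ℍ) : Prop :=
  IsPartition A X ∧ IsPartition B X ∧
    IsPartition (Sum.elim (fun i => ρ i '' A i) (fun j => σ j '' B j)) X

/-- Every isometry of the family moves `P` by less than `c`. -/
def MovesLess {m : ℕ} (ρ : Fin m → ℍ ≃ᵢ ℍ) (P : ℍ) (c : ℝ) : Prop := ∀ i, dist P (ρ i P) < c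

/-! ### The combinatorial part -/

/-- Partition, empty pieces allowed. -/
def WeakPartition {ι : Type} (A : ι → Set ℍ) (X : Set ℍ) : Prop :=
  (∀ i j, i ≠ j → Disjoint (A i) (A j)) ∧ (⋃ i, A i) = X

/-- Removal of empty pieces. -/
theorem prune {ι κ : Type} [Finite ι] [Finite κ] (X : Set ℍ) (hX : X.Nonempty)
    (A : ι → Set ℍ) (B : κ → Set ℍ) (ρ : ι → ℍ ≃ᵢ ℍ) (σ : κ → ℍ ≃ᵢ ℍ) (P : ℍ) (c : ℝ)
    (hA : WeakPartition A X) (hB : WeakPartition B X)
    (hAB : WeakPartition (Sum.elim (fun i => ρ i '' A i) (fun j => σ j '' B j)) X)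
    (mA : ∀ i, MeasurableSet (A i)) (mB : ∀ j, MeasurableSet (B j))
    (dA : ∀ i, dist P (ρ i P) < c) (dB : ∀ j, dist P (σ j P) < c) :
    ∃ (m n : ℕ) (A' : Fin m → Set ℍ) (B' : Fin n → Set ℍ) (ρ' : Fin m → ℍ ≃ᵢ ℍ)
      (σ' : Fin n → ℍ ≃ᵢ ℍ), 1 ≤ m ∧ 1 ≤ n ∧ (∀ i, MeasurableSet (A' i)) ∧
        (∀ j, MeasurableSet (B' j)) ∧ IsParadoxical X A' B' ρ' σ' ∧ MovesLess ρ' P c ∧
        MovesLess σ' P c := by
  obtain ⟨m, ⟨eA⟩⟩ := Finite.exists_equiv_fin {i // (A i).Nonempty}
  obtain ⟨n, ⟨eB⟩⟩ := Finite.exists_equiv_fin {j // (B j).Nonempty}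
  have pa : ∀ {τ ν : Type} (Z : τ → Set ℍ) (Y : Set ℍ) (e : ν → τ), Function.Injective e →
      WeakPartition Z Y → (∀ t, (Z t).Nonempty ↔ ∃ v, e v = t) →
      IsPartition (fun v => Z (e v)) Y := by
    intro τ ν Z Y e he hZ hne
    refine ⟨fun v => (hne _).mpr ⟨v, rfl⟩, fun v w hvw => hZ.1 _ _ (he.ne hvw), ?_⟩
    rw [← hZ.2]
    ext z
    simp only [mem_iUnion]
    constructor
    · rintro ⟨v, hv⟩
      exact ⟨_, hv⟩
    · rintro ⟨t, ht⟩
      obtain ⟨v, rfl⟩ := (hne t).mp ⟨z, ht⟩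
      exact ⟨v, ht⟩
  let fA : Fin m → ι := fun i => (eA.symm i).1
  let fB : Fin n → κ := fun j => (eB.symm j).1
  have hfA : Function.Injective fA := Subtype.val_injective.comp eA.symm.injective
  have hfB : Function.Injective fB := Subtype.val_injective.comp eB.symm.injective
  have hneA : ∀ t, (A t).Nonempty ↔ ∃ v, fA v = t := by
    intro t
    constructor
    · intro h
      exact ⟨eA ⟨t, h⟩, by simp [fA]⟩
    · rintro ⟨v, rfl⟩
      exact (eA.symm v).2
  have hneB : ∀ t, (B t).Nonempty ↔ ∃ v, fB v = t := by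
    intro t
    constructor
    · intro h
      exact ⟨eB ⟨t, h⟩, by simp [fB]⟩
    · rintro ⟨v, rfl⟩
      exact (eB.symm v).2
  have hPA := pa A X fA hfA hA hneA
  have hPB := pa B X fB hfB hB hneB
  refine ⟨m, n, fun i => A (fA i), fun j => B (fB j), fun i => ρ (fA i), fun j => σ (fB j),
    ?_, ?_, fun i => mA _, fun j => mB _, ⟨hPA, hPB, ?_⟩, fun i => dA _, fun j => dB _⟩
  · rw [← hA.2] at hX
    obtain ⟨z, hz⟩ := hX
    obtain ⟨i, hi⟩ := mem_iUnion.mp hz
    obtain ⟨v, -⟩ := (hneA i).mp ⟨z, hi⟩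
    exact v.pos
  · rw [← hB.2] at hX
    obtain ⟨z, hz⟩ := hX
    obtain ⟨i, hi⟩ := mem_iUnion.mp hz
    obtain ⟨v, -⟩ := (hneB i).mp ⟨z, hi⟩
    exact v.pos
  · have h1 := pa (Sum.elim (fun i => ρ i '' A i) (fun j => σ j '' B j)) X
      (Sum.map fA fB : Fin m ⊕ Fin n → ι ⊕ κ) (hfA.sumMap hfB) hAB (by
        rintro (t | t)
        · rw [Sum.elim_inl, image_nonempty, hneA]
          constructor
          · rintro ⟨v, hv⟩
            exact ⟨Sum.inl v, by rw [Sum.map_inl, hv]⟩
          · rintro ⟨v | v, hv⟩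
            · exact ⟨v, Sum.inl_injective hv⟩
            · cases hv
        · rw [Sum.elim_inr, image_nonempty, hneB]
          constructor
          · rintro ⟨v, hv⟩
            exact ⟨Sum.inr v, by rw [Sum.map_inr, hv]⟩
          · rintro ⟨v | v, hv⟩
            · cases hv
            · exact ⟨v, Sum.inr_injective hv⟩)
    have h2 : (fun v => (Sum.elim (fun i => ρ i '' A i) (fun j => σ j '' B j))
        ((Sum.map fA fB : Fin m ⊕ Fin n → ι ⊕ κ) v)) =
        Sum.elim (fun i => ρ (fA i) '' A (fA i)) (fun j => σ (fB j) '' B (fB j)) := by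
      funext v
      cases v <;> rfl
    rw [← h2]
    exact h1

/-- The Schroeder-Bernstein step. -/
theorem schroeder {κ : Type} [Finite κ] (S : κ → Set ℍ) (α β : κ → ℍ ≃ᵢ ℍ)
    (hS : WeakPartition S univ) (mS : ∀ k, MeasurableSet (S k))
    (hα : ∀ k l, k ≠ l → Disjoint (α k '' S k) (α l '' S l))
    (hβ : ∀ k l, k ≠ l → Disjoint (β k '' S k) (β l '' S l))
    (hαβ : ∀ k l, Disjoint (α k '' S k) (β l '' S l)) (P : ℍ) (c : ℝ) (hc : 0 < c)
    (dα : ∀ k, dist P (α k P) < c) (dβ : ∀ k, dist P (β k P) < c) :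
    ∃ (m n : ℕ) (A : Fin m → Set ℍ) (B : Fin n → Set ℍ) (ρ : Fin m → ℍ ≃ᵢ ℍ)
      (σ : Fin n → ℍ ≃ᵢ ℍ), 1 ≤ m ∧ 1 ≤ n ∧ (∀ i, MeasurableSet (A i)) ∧
        (∀ j, MeasurableSet (B j)) ∧ IsParadoxical univ A B ρ σ ∧ MovesLess ρ P c ∧
        MovesLess σ P c := by
  let B0 : Set ℍ := ⋃ k, β k '' S k
  let F : Set ℍ → Set ℍ := fun E => ⋃ k, α k '' (S k ∩ E)
  let W : Set ℍ := ⋃ n : ℕ, F^[n] B0
  have hmeas : ∀ (g : ℍ ≃ᵢ ℍ) (E : Set ℍ), MeasurableSet E → MeasurableSet (g '' E) := by
    intro g E hE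
    exact g.toHomeomorph.toMeasurableEquiv.measurableSet_image.mpr hE
  have mB0 : MeasurableSet B0 := MeasurableSet.iUnion fun k => hmeas _ _ (mS k)
  have mF : ∀ E, MeasurableSet E → MeasurableSet (F E) := fun E hE =>
    MeasurableSet.iUnion fun k => hmeas _ _ ((mS k).inter hE)
  have mW : MeasurableSet W := by
    refine MeasurableSet.iUnion fun n => ?_
    induction n with
    | zero => exact mB0
    | succ n ih =>
      rw [Function.iterate_succ_apply']
      exact mF _ ih
  have hFW : F W ⊆ W := by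
    intro z hz
    obtain ⟨k, y, ⟨hy1, hy2⟩, rfl⟩ := mem_iUnion.mp hz
    obtain ⟨n, hn⟩ := mem_iUnion.mp hy2
    refine mem_iUnion.mpr ⟨n + 1, ?_⟩
    rw [Function.iterate_succ_apply']
    exact mem_iUnion.mpr ⟨k, y, ⟨hy1, hn⟩, rfl⟩
  have hB0W : B0 ⊆ W := fun z hz => mem_iUnion.mpr ⟨0, hz⟩
  have hWsub : W ⊆ B0 ∪ F W := by
    intro z hz
    obtain ⟨n, hn⟩ := mem_iUnion.mp hz
    cases n with
    | zero => exact Or.inl hn
    | succ n =>
      right
      rw [Function.iterate_succ_apply'] at hn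
      obtain ⟨k, y, ⟨hy1, hy2⟩, rfl⟩ := mem_iUnion.mp hn
      exact mem_iUnion.mpr ⟨k, y, ⟨hy1, mem_iUnion.mpr ⟨n, hy2⟩⟩, rfl⟩
  -- the pieces
  let A : Option κ → Set ℍ := fun o => o.elim Wᶜ fun k => S k ∩ W
  let ρ : Option κ → ℍ ≃ᵢ ℍ := fun o => o.elim (IsometryEquiv.refl ℍ) α
  refine prune univ ⟨I, mem_univ _⟩ A S ρ β P c ?_ hS ?_ ?_ mS ?_ dβ
  · constructor
    · rintro (_ | k) (_ | l) hkl
      · exact absurd rfl hkl
      · exact disjoint_compl_left.mono_right inter_subset_right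
      · exact disjoint_compl_right.mono_left inter_subset_right
      · exact (hS.1 k l fun h => hkl (by rw [h])).mono inter_subset_left inter_subset_left
    · rw [eq_univ_iff_forall]
      intro z
      by_cases hz : z ∈ W
      · obtain ⟨k, hk⟩ := mem_iUnion.mp ((eq_univ_iff_forall.mp hS.2) z)
        exact mem_iUnion.mpr ⟨some k, hk, hz⟩
      · exact mem_iUnion.mpr ⟨none, hz⟩
  · have hsome : ∀ k, α k '' (S k ∩ W) ⊆ W := fun k z hz => hFW (mem_iUnion.mpr ⟨k, hz⟩)
    have hbeta : ∀ k, β k '' S k ⊆ W := fun k z hz => hB0W (mem_iUnion.mpr ⟨k, hz⟩)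
    have hid : (IsometryEquiv.refl ℍ) '' Wᶜ = Wᶜ := image_id _
    constructor
    · rintro ((_ | k) | k) ((_ | l) | l) hkl
      · exact absurd rfl hkl
      · change Disjoint ((IsometryEquiv.refl ℍ) '' Wᶜ) (α l '' (S l ∩ W))
        rw [hid]
        exact disjoint_compl_left.mono_right (hsome l)
      · change Disjoint ((IsometryEquiv.refl ℍ) '' Wᶜ) (β l '' S l)
        rw [hid]
        exact disjoint_compl_left.mono_right (hbeta l)
      · change Disjoint (α k '' (S k ∩ W)) ((IsometryEquiv.refl ℍ) '' Wᶜ)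
        rw [hid]
        exact disjoint_compl_right.mono_left (hsome k)
      · change Disjoint (α k '' (S k ∩ W)) (α l '' (S l ∩ W))
        exact (hα k l fun h => hkl (by rw [h])).mono (image_mono inter_subset_left)
          (image_mono inter_subset_left)
      · change Disjoint (α k '' (S k ∩ W)) (β l '' S l)
        exact (hαβ k l).mono_left (image_mono inter_subset_left)
      · change Disjoint (β k '' S k) ((IsometryEquiv.refl ℍ) '' Wᶜ)
        rw [hid]
        exact disjoint_compl_right.mono_left (hbeta k)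
      · change Disjoint (β k '' S k) (α l '' (S l ∩ W))
        exact ((hαβ l k).mono_left (image_mono inter_subset_left)).symm
      · exact hβ k l fun h => hkl (by rw [h])
    · rw [eq_univ_iff_forall]
      intro z
      by_cases hz : z ∈ W
      · rcases hWsub hz with h | h
        · obtain ⟨k, hk⟩ := mem_iUnion.mp h
          exact mem_iUnion.mpr ⟨Sum.inr k, hk⟩
        · obtain ⟨k, hk⟩ := mem_iUnion.mp h
          exact mem_iUnion.mpr ⟨Sum.inl (some k), hk⟩
      · refine mem_iUnion.mpr ⟨Sum.inl none, ?_⟩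
        change z ∈ (IsometryEquiv.refl ℍ) '' Wᶜ
        rw [hid]
        exact hz
  · rintro (_ | k)
    · exact mW.compl
    · exact (mS k).inter mW
  · rintro (_ | k)
    · change dist P P < c
      rw [dist_self]
      exact hc
    · exact dα k

/-! ### Isometries -/

/-- The map to the unit disk sending `i` to `0`. -/
noncomputable def W (z : ℍ) : ℂ := ((z : ℂ) - Complex.I) / ((z : ℂ) + Complex.I)

/-- The matrix of the rotation about `i`. -/
noncomputable def rotM (a : ℝ) : Matrix.SpecialLinearGroup (Fin 2) ℝ :=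
  ⟨!![Real.cos (a / 2), Real.sin (a / 2); -Real.sin (a / 2), Real.cos (a / 2)], by
    rw [Matrix.det_fin_two_of]
    have := Real.cos_sq_add_sin_sq (a / 2)
    nlinarith⟩

/-- The rotation about `i` by the angle `a`. -/
noncomputable def rot (a : ℝ) : ℍ ≃ᵢ ℍ := IsometryEquiv.constSMul (rotM a)

/-- The matrix of the translation along the imaginary axis. -/
noncomputable def traM (s : ℝ) : Matrix.SpecialLinearGroup (Fin 2) ℝ :=
  ⟨!![Real.exp (s / 2), 0; 0, Real.exp (-(s / 2))], by
    rw [Matrix.det_fin_two_of, ← Real.exp_add]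
    simp⟩

/-- The translation along the imaginary axis. -/
noncomputable def tra (s : ℝ) : ℍ ≃ᵢ ℍ := IsometryEquiv.constSMul (traM s)

theorem coe_rot (a : ℝ) (z : ℍ) : ((rot a z : ℍ) : ℂ) =
    ((Real.cos (a / 2) : ℂ) * z + Real.sin (a / 2)) /
      (-(Real.sin (a / 2) : ℂ) * z + Real.cos (a / 2)) := by
  change ((rotM a • z : ℍ) : ℂ) = _
  rw [UpperHalfPlane.coe_specialLinearGroup_apply]
  simp [rotM]

theorem coe_tra (s : ℝ) (z : ℍ) : ((tra s z : ℍ) : ℂ) = (Real.exp s : ℂ) * z := by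
  change ((traM s • z : ℍ) : ℂ) = _
  rw [UpperHalfPlane.coe_specialLinearGroup_apply]
  simp only [traM, Matrix.of_apply, Matrix.cons_val', Matrix.cons_val_zero,
    Matrix.cons_val_fin_one, Matrix.cons_val_one, map_zero, Complex.ofReal_zero, add_zero,
    zero_mul, zero_add]
  change ((Real.exp (s / 2) : ℝ) : ℂ) * z / ((Real.exp (-(s / 2)) : ℝ) : ℂ) = _
  rw [mul_div_right_comm]
  congr 1
  rw [← Complex.ofReal_div, ← Real.exp_sub]
  congr 2
  ring

theorem add_I_ne (z : ℍ) : (z : ℂ) + Complex.I ≠ 0 := by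
  intro h
  have h1 := congrArg Complex.im h
  simp at h1
  have := z.im_pos
  linarith

theorem W_rot (a : ℝ) (z : ℍ) : W (rot a z) = Complex.exp (a * Complex.I) * W z := by
  have hz := add_I_ne z
  have h2 := add_I_ne (rot a z)
  rw [W, W, coe_rot] at *
  set c : ℂ := (Real.cos (a / 2) : ℂ) with hc
  set s : ℂ := (Real.sin (a / 2) : ℂ) with hs
  have hcs : c ^ 2 + s ^ 2 = 1 := by
    rw [hc, hs]
    exact_mod_cast Real.cos_sq_add_sin_sq (a / 2)
  have hexp : Complex.exp (a * Complex.I) = (c + s * Complex.I) ^ 2 := by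
    have : (a : ℂ) * Complex.I = ((a / 2 : ℝ) : ℂ) * Complex.I + ((a / 2 : ℝ) : ℂ) * Complex.I := by
      push_cast
      ring
    rw [this, Complex.exp_add, Complex.exp_mul_I, ← Complex.ofReal_cos, ← Complex.ofReal_sin]
    ring
  have hden : -s * (z : ℂ) + c ≠ 0 := by
    intro h0
    have h1 := congrArg Complex.im h0
    have h3 := congrArg Complex.re h0
    rw [hc, hs] at h1 h3
    simp only [Complex.add_im, Complex.mul_im, Complex.neg_im, Complex.ofReal_im, Complex.neg_re,
      Complex.ofReal_re, Complex.zero_im, Complex.add_re, Complex.mul_re, Complex.zero_re,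
      UpperHalfPlane.coe_im, UpperHalfPlane.coe_re] at h1 h3
    have him := z.im_pos
    have hs0 : Real.sin (a / 2) = 0 := by
      have : Real.sin (a / 2) * z.im = 0 := by linarith
      rcases mul_eq_zero.mp this with h | h
      · exact h
      · linarith
    have hc0 : Real.cos (a / 2) = 0 := by
      rw [hs0] at h3
      linarith
    have := Real.cos_sq_add_sin_sq (a / 2)
    rw [hs0, hc0] at this
    norm_num at this
  have hI := Complex.I_mul_I
  have e1 : (c * z + s) / (-s * z + c) - Complex.I =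
      (c + s * Complex.I) * ((z : ℂ) - Complex.I) / (-s * z + c) := by
    rw [eq_div_iff hden, sub_mul, div_mul_cancel₀ _ hden]
    linear_combination (s * (1 : ℂ)) * hI
  have e2 : (c * z + s) / (-s * z + c) + Complex.I =
      (c - s * Complex.I) * ((z : ℂ) + Complex.I) / (-s * z + c) := by
    rw [eq_div_iff hden, add_mul, div_mul_cancel₀ _ hden]
    linear_combination (s * (1 : ℂ)) * hI
  have hcs2 : (c - s * Complex.I) * (c + s * Complex.I) = 1 := by
    linear_combination hcs - s ^ 2 * hI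
  have hne : c - s * Complex.I ≠ 0 := left_ne_zero_of_mul_eq_one hcs2
  rw [e1, e2, hexp, div_div_div_cancel_right₀ hden, mul_div_mul_comm]
  congr 1
  rw [div_eq_iff hne]
  linear_combination -(c + s * Complex.I) * hcs2

theorem rot_I (a : ℝ) : rot a I = I := by
  apply UpperHalfPlane.ext
  rw [coe_rot, UpperHalfPlane.coe_I]
  have hI := Complex.I_mul_I
  have hne : -(Real.sin (a / 2) : ℂ) * Complex.I + Real.cos (a / 2) ≠ 0 := by
    intro h
    have h1 := congrArg Complex.re h
    have h2 := congrArg Complex.im h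
    simp only [Complex.add_im, Complex.mul_im, Complex.neg_im, Complex.ofReal_im, Complex.neg_re,
      Complex.ofReal_re, Complex.zero_im, Complex.add_re, Complex.mul_re, Complex.zero_re,
      Complex.I_re, Complex.I_im] at h1 h2
    have hs0 : Real.sin (a / 2) = 0 := by linarith
    have hc0 : Real.cos (a / 2) = 0 := by linarith
    have := Real.cos_sq_add_sin_sq (a / 2)
    rw [hs0, hc0] at this
    norm_num at this
  rw [div_eq_iff hne]
  linear_combination (Real.sin (a / 2) : ℂ) * hI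

theorem dist_tra {s : ℝ} (hs : 0 ≤ s) : dist I (tra s I) = s := by
  have h1 : (tra s I).re = 0 := by
    rw [← UpperHalfPlane.coe_re, coe_tra, UpperHalfPlane.coe_I]
    simp
  have h2 : (tra s I).im = Real.exp s := by
    rw [← UpperHalfPlane.coe_im, coe_tra, UpperHalfPlane.coe_I, Complex.im_ofReal_mul,
      Complex.I_im, mul_one]
  rw [UpperHalfPlane.dist_of_re_eq (by rw [h1, UpperHalfPlane.I_re]), h2, UpperHalfPlane.I_im,
    Real.log_one, Real.log_exp, Real.dist_eq, zero_sub, abs_neg, abs_of_nonneg hs]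

theorem W_re_im (z : ℍ) : (W z).re = (z.re ^ 2 + z.im ^ 2 - 1) / (z.re ^ 2 + (z.im + 1) ^ 2) ∧
    (W z).im = -2 * z.re / (z.re ^ 2 + (z.im + 1) ^ 2) := by
  have hn : Complex.normSq ((z : ℂ) + Complex.I) = z.re ^ 2 + (z.im + 1) ^ 2 := by
    rw [Complex.normSq_apply]
    simp
    ring
  constructor
  · rw [W, Complex.div_re, hn]
    simp
    rw [← add_div]
    congr 1
    ring
  · rw [W, Complex.div_im, hn]
    simp
    rw [← sub_div]
    congr 1
    ring

/-- The translation shrinks the sector about the positive axis. -/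
theorem shrink {s t : ℝ} (hs : 0 < s) (ht : 0 < t) (z : ℍ) (h : |(W z).im| ≤ t * (W z).re) :
    0 < (W (tra s z)).re ∧
      |(W (tra s z)).im| ≤ Real.exp (-s) * t * (W (tra s z)).re := by
  obtain ⟨h1, h2⟩ := W_re_im z
  obtain ⟨h3, h4⟩ := W_re_im (tra s z)
  have hre : (tra s z).re = Real.exp s * z.re := by
    rw [← UpperHalfPlane.coe_re, coe_tra, Complex.re_ofReal_mul, UpperHalfPlane.coe_re]
  have him : (tra s z).im = Real.exp s * z.im := by
    rw [← UpperHalfPlane.coe_im, coe_tra, Complex.im_ofReal_mul, UpperHalfPlane.coe_im]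
  rw [hre, him] at h3 h4
  have hy := z.im_pos
  have hE : 1 < Real.exp s := Real.one_lt_exp_iff.mpr hs
  have hEE : Real.exp (-s) * Real.exp s = 1 := by rw [← Real.exp_add]; simp
  have hE' : 0 < Real.exp (-s) := Real.exp_pos _
  have hE'1 : Real.exp (-s) < 1 := by nlinarith
  generalize Real.exp s = E at *
  generalize Real.exp (-s) = E' at *
  generalize z.re = x at *
  generalize z.im = y at *
  have d1 : 0 < x ^ 2 + (y + 1) ^ 2 := by positivity
  have d2 : 0 < (E * x) ^ 2 + (E * y + 1) ^ 2 := by positivity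
  rw [h1, h2, abs_div, abs_of_pos d1, ← mul_div_assoc, div_le_div_iff_of_pos_right d1] at h
  have hx2 : |-2 * x| = 2 * |x| := by rw [abs_mul, abs_neg, abs_two]
  rw [hx2] at h
  have habs := abs_nonneg x
  have hq : 0 ≤ x ^ 2 + y ^ 2 - 1 := by
    by_contra hcon
    push Not at hcon
    nlinarith
  have hE2 : 1 < E ^ 2 := by nlinarith
  constructor
  · rw [h3]
    apply div_pos _ d2
    nlinarith
  · rw [h3, h4, abs_div, abs_of_pos d2, ← mul_div_assoc, div_le_div_iff_of_pos_right d2]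
    have hx3 : |-2 * (E * x)| = E * (2 * |x|) := by
      rw [abs_mul, abs_neg, abs_two, abs_mul, abs_of_pos (by linarith : (0 : ℝ) < E)]
      ring
    rw [hx3]
    have e1 : E * (2 * |x|) ≤ E * (t * (x ^ 2 + y ^ 2 - 1)) :=
      mul_le_mul_of_nonneg_left h (by linarith)
    have e2 : E' * t * ((E * x) ^ 2 + (E * y) ^ 2 - 1) =
        E * (t * (x ^ 2 + y ^ 2 - 1)) + t * (E - E') := by
      have : E' * t * ((E * x) ^ 2 + (E * y) ^ 2 - 1) =
        (E' * E) * (E * (t * (x ^ 2 + y ^ 2))) - t * E' := by ring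
      rw [this, hEE]
      ring
    rw [e2]
    have e3 : 0 ≤ t * (E - E') := mul_nonneg ht.le (by linarith)
    linarith

/-! ### Sectors -/

/-- The closed sector of opening `2δ` with apex `i` about the direction `2kδ`. -/
def Sec (δ : ℝ) (k : ℕ) : Set ℍ :=
  {z | |(W (rot (-(2 * k * δ)) z)).im| ≤ Real.tan δ * (W (rot (-(2 * k * δ)) z)).re}

/-- The open cone of the directions in `(jδ, (j+1)δ)`. -/
def Cone (δ : ℝ) (j : ℤ) : Set ℂ :=
  {v | ∃ r φ : ℝ, 0 < r ∧ 0 < φ ∧ φ < 1 ∧ v = r * Complex.exp (((j + φ) * δ : ℝ) * Complex.I)}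

theorem cone_disj {n : ℕ} (hn : 0 < n) {j l : ℤ} {v : ℂ} (h1 : v ∈ Cone (π / n) j)
    (h2 : v ∈ Cone (π / n) l) : ∃ m : ℤ, j - l = 2 * n * m := by
  obtain ⟨r, φ, hr, hφ0, hφ1, hv⟩ := h1
  obtain ⟨r', φ', hr', hφ0', hφ1', hv'⟩ := h2
  have hn' : (0 : ℝ) < n := by exact_mod_cast hn
  have hnorm : r = r' := by
    have e1 : ‖v‖ = r := by
      rw [hv, norm_mul, Complex.norm_exp_ofReal_mul_I, mul_one, Complex.norm_real,
        Real.norm_of_nonneg hr.le]
    have e2 : ‖v‖ = r' := by
      rw [hv', norm_mul, Complex.norm_exp_ofReal_mul_I, mul_one, Complex.norm_real,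
        Real.norm_of_nonneg hr'.le]
    rw [← e1, e2]
  subst hnorm
  have hrc : (r : ℂ) ≠ 0 := by exact_mod_cast hr.ne'
  have hexp := mul_left_cancel₀ hrc (hv.symm.trans hv')
  rw [Complex.exp_eq_exp_iff_exists_int] at hexp
  obtain ⟨m, hm⟩ := hexp
  have hm' : ((j + φ) * (π / n) : ℝ) = (l + φ') * (π / n) + m * (2 * π) := by
    have h3 : (((j + φ) * (π / n) : ℝ) : ℂ) * Complex.I =
        (((l + φ') * (π / n) + m * (2 * π) : ℝ) : ℂ) * Complex.I := by
      rw [hm]
      push_cast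
      ring
    exact_mod_cast mul_right_cancel₀ Complex.I_ne_zero h3
  have hm'' : (j + φ : ℝ) = (l + φ') + 2 * n * m := by
    have hpi := Real.pi_pos
    field_simp at hm'
    linarith
  have h5 : ((j - l - 2 * n * m : ℤ) : ℝ) = φ' - φ := by
    push_cast
    linarith
  have h6 : ((j - l - 2 * n * m : ℤ) : ℝ) < 1 := by rw [h5]; linarith
  have h7 : (-1 : ℝ) < ((j - l - 2 * n * m : ℤ) : ℝ) := by rw [h5]; linarith
  have h8 : (j - l - 2 * n * m : ℤ) < 1 := by exact_mod_cast h6
  have h9 : -1 < (j - l - 2 * n * m : ℤ) := by exact_mod_cast h7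
  exact ⟨m, by omega⟩

theorem sec_cover {n : ℕ} (hn : 3 ≤ n) (z : ℍ) : ∃ k : Fin n, z ∈ Sec (π / n) k := by
  have hn' : (0 : ℝ) < n := by exact_mod_cast (by omega : 0 < n)
  have hn3 : (3 : ℝ) ≤ n := by exact_mod_cast hn
  have hpi := Real.pi_pos
  set δ := π / n with hδ
  have hδ0 : 0 < δ := by positivity
  have hδ1 : δ < π / 2 := by
    rw [hδ, div_lt_div_iff₀ hn' two_pos]
    nlinarith
  set v := W z with hv
  set θ := Complex.arg v with hθ
  set j : ℤ := round (θ / (2 * δ)) with hj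
  have hround : |θ - 2 * j * δ| ≤ δ := by
    have h1 := abs_sub_round (θ / (2 * δ))
    have h2 : θ - 2 * j * δ = (θ / (2 * δ) - round (θ / (2 * δ))) * (2 * δ) := by
      rw [← hj]
      field_simp
    rw [h2, abs_mul, abs_of_pos (by positivity : (0 : ℝ) < 2 * δ)]
    nlinarith
  have hkpos : 0 ≤ j % (n : ℤ) := Int.emod_nonneg _ (by omega)
  have hklt : j % (n : ℤ) < n := Int.emod_lt_of_pos _ (by omega)
  refine ⟨⟨(j % (n : ℤ)).toNat, by omega⟩, ?_⟩
  have hk : (((j % (n : ℤ)).toNat : ℕ) : ℝ) = j - n * (j / (n : ℤ) : ℤ) := by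
    have h1 : (((j % (n : ℤ)).toNat : ℕ) : ℤ) = j - n * (j / (n : ℤ)) := by
      rw [Int.toNat_of_nonneg hkpos]
      have := Int.emod_add_mul_ediv j n
      linarith
    exact_mod_cast h1
  set φ := θ - 2 * j * δ with hφ
  have hw : W (rot (-(2 * (((j % (n : ℤ)).toNat : ℕ) : ℝ) * δ)) z) =
      (‖v‖ : ℂ) * Complex.exp (φ * Complex.I) := by
    rw [W_rot, ← hv, hk]
    have h1 : v = (‖v‖ : ℂ) * Complex.exp (θ * Complex.I) := by
      rw [hθ]
      exact (Complex.norm_mul_exp_arg_mul_I v).symm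
    conv_lhs => rw [h1]
    rw [mul_left_comm, ← Complex.exp_add]
    congr 1
    rw [Complex.exp_eq_exp_iff_exists_int]
    refine ⟨j / (n : ℤ), ?_⟩
    rw [hφ, hδ]
    push_cast
    have hnc : (n : ℂ) ≠ 0 := by exact_mod_cast hn'.ne'
    field_simp
    ring
  have him : (((‖v‖ : ℂ) * Complex.exp (φ * Complex.I)).im) = ‖v‖ * Real.sin φ := by
    rw [Complex.im_ofReal_mul, Complex.exp_ofReal_mul_I_im]
  have hre : (((‖v‖ : ℂ) * Complex.exp (φ * Complex.I)).re) = ‖v‖ * Real.cos φ := by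
    rw [Complex.re_ofReal_mul, Complex.exp_ofReal_mul_I_re]
  change |(W (rot (-(2 * (((j % (n : ℤ)).toNat : ℕ) : ℝ) * δ)) z)).im| ≤ Real.tan δ *
    (W (rot (-(2 * (((j % (n : ℤ)).toNat : ℕ) : ℝ) * δ)) z)).re
  rw [hw, him, hre, abs_mul, abs_norm]
  have hkey : |Real.sin φ| ≤ Real.tan δ * Real.cos φ := by
    have hcos : 0 < Real.cos δ := Real.cos_pos_of_mem_Ioo ⟨by linarith, hδ1⟩
    obtain ⟨hl, hr⟩ := abs_le.mp hround
    rw [Real.tan_eq_sin_div_cos, div_mul_eq_mul_div, le_div_iff₀ hcos]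
    have h1 : 0 ≤ Real.sin (δ - φ) := Real.sin_nonneg_of_nonneg_of_le_pi (by linarith) (by linarith)
    have h2 : 0 ≤ Real.sin (δ + φ) := Real.sin_nonneg_of_nonneg_of_le_pi (by linarith) (by linarith)
    rw [Real.sin_sub] at h1
    rw [Real.sin_add] at h2
    rcases abs_cases (Real.sin φ) with ⟨h, -⟩ | ⟨h, -⟩ <;> rw [h] <;> linarith
  have := mul_le_mul_of_nonneg_left hkey (norm_nonneg v)
  linarith

/-- Polar form inside a narrow cone. -/
theorem polar {q η : ℝ} (hη0 : 0 < η) (hη1 : η < π / 2) (hq : q < Real.tan η) {v : ℂ}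
    (h0 : 0 < v.re) (h1 : |v.im| ≤ q * v.re) :
    ∃ r φ : ℝ, 0 < r ∧ |φ| < η ∧ v = r * Complex.exp (φ * Complex.I) := by
  have hv : v ≠ 0 := by
    rintro rfl
    simp at h0
  refine ⟨‖v‖, Complex.arg v, norm_pos_iff.mpr hv, ?_, (Complex.norm_mul_exp_arg_mul_I v).symm⟩
  have harg : |Complex.arg v| < π / 2 := Complex.abs_arg_lt_pi_div_two_iff.mpr (Or.inl h0)
  obtain ⟨ha1, ha2⟩ := abs_lt.mp harg
  have htan := Complex.tan_arg v
  have h2 : |v.im / v.re| ≤ q := by
    rw [abs_div, abs_of_pos h0, div_le_iff₀ h0]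
    exact h1
  rw [← htan] at h2
  obtain ⟨h3, h4⟩ := abs_le.mp h2
  rw [abs_lt]
  constructor
  · by_contra hcon
    push Not at hcon
    have h5 : Real.tan (Complex.arg v) ≤ Real.tan (-η) := by
      rcases hcon.lt_or_eq with h | h
      · exact (Real.tan_lt_tan_of_lt_of_lt_pi_div_two (by linarith) (by linarith) h).le
      · rw [h]
    rw [Real.tan_neg] at h5
    linarith
  · by_contra hcon
    push Not at hcon
    have h5 : Real.tan η ≤ Real.tan (Complex.arg v) := by
      rcases hcon.lt_or_eq with h | h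
      · exact (Real.tan_lt_tan_of_lt_of_lt_pi_div_two (by linarith) (by linarith) h).le
      · rw [← h]
    linarith

/-- The isometries used. -/
noncomputable def g (s δ : ℝ) (k : ℕ) (e : ℝ) : ℍ ≃ᵢ ℍ :=
  ((rot (-(2 * k * δ))).trans (tra s)).trans (rot (2 * k * δ + e * δ))

theorem g_apply (s δ : ℝ) (k : ℕ) (e : ℝ) (z : ℍ) :
    g s δ k e z = rot (2 * k * δ + e * δ) (tra s (rot (-(2 * k * δ)) z)) := rfl

theorem dist_g {s : ℝ} (hs : 0 ≤ s) (δ : ℝ) (k : ℕ) (e : ℝ) : dist I (g s δ k e I) = s := by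
  rw [g_apply, rot_I]
  calc dist I (rot (2 * k * δ + e * δ) (tra s I))
      = dist (rot (2 * k * δ + e * δ) I) (rot (2 * k * δ + e * δ) (tra s I)) := by rw [rot_I]
    _ = dist I (tra s I) := (rot (2 * k * δ + e * δ)).dist_eq _ _
    _ = s := dist_tra hs

theorem g_mem {s δ : ℝ} (hs : 0 < s) (hδ0 : 0 < δ) (hδ1 : δ < π / 2)
    (hq : Real.exp (-s) * Real.tan δ < Real.tan (δ / 2)) (k : ℕ) (z : ℍ) (hz : z ∈ Sec δ k) :
    W (g s δ k (1 / 2) z) ∈ Cone δ (2 * k) ∧ W (g s δ k (-(1 / 2)) z) ∈ Cone δ (2 * k - 1) := by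
  have htan : 0 < Real.tan δ := Real.tan_pos_of_pos_of_lt_pi_div_two hδ0 hδ1
  obtain ⟨h0, h1⟩ := shrink hs htan _ hz
  obtain ⟨r, φ, hr, hφ, hv⟩ := polar (by linarith : (0 : ℝ) < δ / 2) (by linarith) hq h0 h1
  obtain ⟨hφ1, hφ2⟩ := abs_lt.mp hφ
  have e1 : -(1 / 2) < φ / δ := by
    rw [lt_div_iff₀ hδ0]
    linarith
  have e2 : φ / δ < 1 / 2 := by
    rw [div_lt_iff₀ hδ0]
    linarith
  have e3 : φ = φ / δ * δ := by field_simp
  constructor
  · refine ⟨r, 1 / 2 + φ / δ, hr, by linarith, by linarith, ?_⟩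
    rw [g_apply, W_rot, hv, mul_left_comm, ← Complex.exp_add]
    congr 2
    rw [← add_mul]
    congr 1
    rw [← Complex.ofReal_add]
    congr 1
    push_cast
    linarith
  · refine ⟨r, 1 / 2 + φ / δ, hr, by linarith, by linarith, ?_⟩
    rw [g_apply, W_rot, hv, mul_left_comm, ← Complex.exp_add]
    congr 2
    rw [← add_mul]
    congr 1
    rw [← Complex.ofReal_add]
    congr 1
    push_cast
    linarith

theorem continuous_W : Continuous W := by
  unfold W
  refine Continuous.div ?_ ?_ add_I_ne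
  · exact UpperHalfPlane.continuous_coe.sub continuous_const
  · exact UpperHalfPlane.continuous_coe.add continuous_const

theorem measurable_Sec (δ : ℝ) (k : ℕ) : MeasurableSet (Sec δ k) := by
  have h1 : Continuous fun z => W (rot (-(2 * k * δ)) z) :=
    continuous_W.comp (rot _).continuous
  apply IsClosed.measurableSet
  exact isClosed_le (Complex.continuous_im.comp h1).abs
    (continuous_const.mul (Complex.continuous_re.comp h1))

/-- A good number of sectors. -/
theorem exists_n {s : ℝ} (hs : Real.log 2 < s) : ∃ n : ℕ, 3 ≤ n ∧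
    Real.exp (-s) * Real.tan (π / n) < Real.tan (π / n / 2) := by
  have h1 : 2 * Real.exp (-s) < 1 := by
    have h2 : Real.exp (-s) < Real.exp (-Real.log 2) := Real.exp_lt_exp.mpr (by linarith)
    rw [Real.exp_neg (Real.log 2), Real.exp_log two_pos] at h2
    linarith
  have htend : Filter.Tendsto (fun n : ℕ => Real.tan (π / n / 2) ^ 2) Filter.atTop
      (nhds 0) := by
    have h2 : Filter.Tendsto (fun n : ℕ => π / n / 2) Filter.atTop (nhds 0) := by
      have := (tendsto_const_div_atTop_nhds_zero_nat π).div_const 2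
      rwa [zero_div] at this
    have h3 : ContinuousAt Real.tan 0 := Real.continuousAt_tan.mpr (by simp)
    have h4 := (h3.tendsto.comp h2).pow 2
    rw [Real.tan_zero] at h4
    simpa using h4
  have hev := htend.eventually (gt_mem_nhds (by linarith : (0 : ℝ) < 1 - 2 * Real.exp (-s)))
  obtain ⟨n, hn3, hn⟩ := ((Filter.eventually_ge_atTop 3).and hev).exists
  refine ⟨n, hn3, ?_⟩
  have hn' : (0 : ℝ) < n := by exact_mod_cast (by omega : 0 < n)
  have hpi := Real.pi_pos
  have hδ0 : 0 < π / n / 2 := by positivity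
  have hδ1 : π / n / 2 < π / 2 := by
    have : π / n < π := by
      rw [div_lt_iff₀ hn']
      have : (3 : ℝ) ≤ n := by exact_mod_cast hn3
      nlinarith
    linarith
  have hu := Real.tan_pos_of_pos_of_lt_pi_div_two hδ0 hδ1
  have hdouble : Real.tan (π / n) = 2 * Real.tan (π / n / 2) / (1 - Real.tan (π / n / 2) ^ 2) := by
    rw [← Real.tan_two_mul]
    congr 1
    ring
  have hE := Real.exp_pos (-s)
  rw [hdouble]
  have hden : 0 < 1 - Real.tan (π / n / 2) ^ 2 := by linarith
  rw [← mul_div_assoc, div_lt_iff₀ hden]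
  nlinarith

theorem volume_univ_pos : 0 < volume (univ : Set ℍ) := by
  rw [UpperHalfPlane.volume_eq_lintegral, setLIntegral_pos_iff (by fun_prop)]
  have hopen : IsOpen {z : ℂ | 0 < z.im} := isOpen_lt continuous_const Complex.continuous_im
  refine (hopen.measure_pos volume ⟨Complex.I, by simp⟩).trans_le (measure_mono ?_)
  intro z hz
  have hz' : 0 < z.im := hz
  refine ⟨?_, ⟨⟨z, hz'⟩, mem_univ _, rfl⟩⟩
  rw [Function.mem_support]
  have h1 : ‖z.im‖₊ ≠ 0 := by
    rw [nnnorm_ne_zero_iff]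
    exact hz'.ne'
  have h2 : ((1 / ‖z.im‖₊) ^ 2 : NNReal) ≠ 0 := pow_ne_zero 2 (one_div_ne_zero h1)
  exact_mod_cast h2

/-- **Negative answer to Q1** (no constant larger than `ln 2` works): for every `c > ln 2` there are
a measurable set `X` of positive hyperbolic area, a paradoxical decomposition of `X` with measurable
pieces, and a point `P` moved by less than `c` by every isometry used. -/
theorem result : ∀ c : ℝ, Real.log 2 < c →
    ∃ (X : Set ℍ) (m n : ℕ) (A : Fin m → Set ℍ) (B : Fin n → Set ℍ) (ρ : Fin m → ℍ ≃ᵢ ℍ)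
      (σ : Fin n → ℍ ≃ᵢ ℍ) (P : ℍ), MeasurableSet X ∧ 0 < volume X ∧ 1 ≤ m ∧ 1 ≤ n ∧
        (∀ i, MeasurableSet (A i)) ∧ (∀ j, MeasurableSet (B j)) ∧ IsParadoxical X A B ρ σ ∧
        MovesLess ρ P c ∧ MovesLess σ P c := by
  intro c hc
  obtain ⟨s, hs1, hs2⟩ := exists_between hc
  have hlog : 0 < Real.log 2 := Real.log_pos one_lt_two
  have hs : 0 < s := by linarith
  obtain ⟨n, hn3, hq⟩ := exists_n hs1
  have hn' : (0 : ℝ) < n := by exact_mod_cast (by omega : 0 < n)
  have hpi := Real.pi_pos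
  set δ := π / n with hδ
  have hδ0 : 0 < δ := by positivity
  have hδ1 : δ < π / 2 := by
    rw [hδ, div_lt_div_iff₀ hn' two_pos]
    have : (3 : ℝ) ≤ n := by exact_mod_cast hn3
    nlinarith
  let S : Fin n → Set ℍ := fun k => {z | z ∈ Sec δ k ∧ ∀ l : Fin n, l < k → z ∉ Sec δ l}
  have hSsub : ∀ k, S k ⊆ Sec δ k := fun k z hz => hz.1
  have hS : WeakPartition S univ := by
    constructor
    · intro k l hkl
      rw [Set.disjoint_left]
      intro z hz1 hz2
      rcases lt_or_gt_of_ne hkl with h | h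
      · exact hz2.2 k h hz1.1
      · exact hz1.2 l h hz2.1
    · rw [eq_univ_iff_forall]
      intro z
      classical
      have hex : ∃ k : Fin n, z ∈ Sec δ k := sec_cover hn3 z
      let T : Finset (Fin n) := Finset.univ.filter fun k => z ∈ Sec δ k
      have hT : T.Nonempty := by
        obtain ⟨k, hk⟩ := hex
        exact ⟨k, by simp [T, hk]⟩
      have hmin := T.min'_mem hT
      refine mem_iUnion.mpr ⟨T.min' hT, (Finset.mem_filter.mp hmin).2, fun l hl hzl => ?_⟩
      have := T.min'_le l (by simp [T, hzl])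
      exact absurd hl (not_lt.mpr this)
  have mS : ∀ k, MeasurableSet (S k) := by
    intro k
    have : S k = Sec δ k ∩ ⋂ l : Fin n, ⋂ _ : l < k, (Sec δ l)ᶜ := by
      ext z
      simp [S]
    rw [this]
    exact (measurable_Sec δ k).inter (MeasurableSet.iInter fun l => MeasurableSet.iInter fun _ =>
      (measurable_Sec δ l).compl)
  have hα : ∀ k : Fin n, ∀ y ∈ g s δ k (1 / 2) '' S k, W y ∈ Cone δ (2 * (k : ℕ)) := by
    rintro k _ ⟨z, hz, rfl⟩
    exact (g_mem hs hδ0 hδ1 hq k z (hSsub k hz)).1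
  have hβ : ∀ k : Fin n, ∀ y ∈ g s δ k (-(1 / 2)) '' S k,
      W y ∈ Cone δ (2 * (k : ℕ) - 1) := by
    rintro k _ ⟨z, hz, rfl⟩
    exact (g_mem hs hδ0 hδ1 hq k z (hSsub k hz)).2
  have hpos : 0 < n := by omega
  obtain ⟨m, n', A, B, ρ, σ, hm, hn, mA, mB, hP, d1, d2⟩ :=
    schroeder S (fun k => g s δ k (1 / 2)) (fun k => g s δ k (-(1 / 2))) hS mS
      (by
        intro k l hkl
        rw [Set.disjoint_left]
        intro y hy1 hy2
        obtain ⟨m, hm⟩ := cone_disj hpos (hα k y hy1) (hα l y hy2)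
        apply hkl
        apply Fin.ext
        have hk := k.2
        have hl := l.2
        rcases lt_trichotomy m 0 with h | h | h
        · nlinarith
        · subst h
          omega
        · nlinarith)
      (by
        intro k l hkl
        rw [Set.disjoint_left]
        intro y hy1 hy2
        obtain ⟨m, hm⟩ := cone_disj hpos (hβ k y hy1) (hβ l y hy2)
        apply hkl
        apply Fin.ext
        have hk := k.2
        have hl := l.2
        rcases lt_trichotomy m 0 with h | h | h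
        · nlinarith
        · subst h
          omega
        · nlinarith)
      (by
        intro k l
        rw [Set.disjoint_left]
        intro y hy1 hy2
        obtain ⟨m, hm⟩ := cone_disj hpos (hα k y hy1) (hβ l y hy2)
        have : (2 * (n : ℤ) * m) = 2 * (n * m) := by ring
        omega)
      I c (by linarith) (fun k => by rw [dist_g hs.le]; exact hs2)
      (fun k => by rw [dist_g hs.le]; exact hs2)
  refine ⟨univ, m, n', A, B, ρ, σ, I, MeasurableSet.univ, volume_univ_pos, hm, hn, mA, mB, hP,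
    d1, d2⟩

end Pool.Agent.Results.MP_9ed947_gt.NoLargerConstant
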